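import Mathlib

/-!
# MP_4b6a63_an: a bi-Lipschitz hotel in `ℓ∞` with displacement in `c₀`

For a bounded real sequence `a` put `U = limsup a` and `l = liminf a`. The sequence `x` with
`x 0 = t` and `x (n+1) = max (l - a n) (min (x n) (U - a n))` tends to zero, and the map
`(t, a) ↦ a n + x n + x (n+1)` is a bijection.
-/

set_option autoImplicit false

open Filter Topology

namespace Pool.Agent.Lib.MP_4b6a63_an

/-- projection of `x` to the interval `[p, q]` -/
noncomputable def cl (p q x : ℝ) : ℝ := max p (min x q)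

theorem cl_abs_le {p q x η : ℝ} (hx : |x| ≤ η) (hp : p ≤ η) (hq : -η ≤ q) :
    |cl p q x| ≤ η := by
  unfold cl
  rw [abs_le] at hx ⊢
  constructor
  · exact le_trans (le_min hx.1 hq) (le_max_right _ _)
  · exact max_le hp (le_trans (min_le_left _ _) hx.2)

theorem cl_sub_le {p q x p' q' x' δ : ℝ} (hp : |p - p'| ≤ δ) (hq : |q - q'| ≤ δ)
    (hx : |x - x'| ≤ δ) : |cl p q x - cl p' q' x'| ≤ δ := by
  unfold cl
  have h1 : |min x q - min x' q'| ≤ δ :=
    le_trans (abs_min_sub_min_le_max x q x' q') (max_le hx hq)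
  exact le_trans (abs_max_sub_max_le_max p (min x q) p' (min x' q')) (max_le hp h1)

/-- the two recursions are inverse to each other -/
theorem cl_inv {l U z a x y : ℝ} (hlU : l ≤ U) (hz : z = a + x + y)
    (hy : y = cl (l - a) (U - a) x) : x = cl (z - U) (z - l) y := by
  subst hz
  unfold cl at *
  rcases le_total x (U - a) with h1 | h1
  · rw [min_eq_left h1] at hy
    rcases le_total (l - a) x with h2 | h2
    · rw [max_eq_right h2] at hy
      subst hy
      rw [min_eq_left (by linarith), max_eq_right (by linarith)]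
    · rw [max_eq_left h2] at hy
      subst hy
      rw [min_eq_right (by linarith), max_eq_right (by linarith)]
      ring
  · rw [min_eq_right h1, max_eq_right (by linarith)] at hy
    subst hy
    rw [max_eq_left]
    · ring
    · refine le_trans (min_le_left _ _) ?_
      linarith

theorem cl_inv' {l U z a x y : ℝ} (hlU : l ≤ U) (hz : z = a + x + y)
    (hx : x = cl (z - U) (z - l) y) : y = cl (l - a) (U - a) x := by
  subst hz
  unfold cl at *
  rcases le_total y (a + x + y - l) with h1 | h1
  · rw [min_eq_left h1] at hx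
    rcases le_total (a + x + y - U) y with h2 | h2
    · rw [max_eq_right h2] at hx
      subst hx
      rw [min_eq_left (by linarith), max_eq_right (by linarith)]
    · rw [max_eq_left h2] at hx
      rw [min_eq_right (by linarith), max_eq_right (by linarith)]
      linarith
  · rw [min_eq_right h1, max_eq_right (by linarith)] at hx
    rw [max_eq_left]
    · linarith
    · refine le_trans (min_le_left _ _) ?_
      linarith

/-! ### Upper and lower limits -/

/-- boundedness of a sequence by `B` -/
def Bdd (B : ℝ) (a : ℕ → ℝ) : Prop := ∀ n, |a n| ≤ B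

theorem Bdd.above {B : ℝ} {a : ℕ → ℝ} (h : Bdd B a) :
    IsBoundedUnder (· ≤ ·) atTop a :=
  isBoundedUnder_of ⟨B, fun n => (abs_le.1 (h n)).2⟩

theorem Bdd.below {B : ℝ} {a : ℕ → ℝ} (h : Bdd B a) :
    IsBoundedUnder (· ≥ ·) atTop a :=
  isBoundedUnder_of ⟨-B, fun n => (abs_le.1 (h n)).1⟩

theorem eventually_lt {B : ℝ} {a : ℕ → ℝ} (h : Bdd B a) {η : ℝ} (hη : 0 < η) :
    ∀ᶠ n in atTop, a n < limsup a atTop + η :=
  eventually_lt_of_limsup_lt (by linarith) h.above

theorem frequently_gt {B : ℝ} {a : ℕ → ℝ} (h : Bdd B a) {η : ℝ} (hη : 0 < η) :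
    ∃ᶠ n in atTop, limsup a atTop - η < a n :=
  frequently_lt_of_lt_limsup h.below.isCoboundedUnder_flip (by linarith)

theorem eventually_gt {B : ℝ} {a : ℕ → ℝ} (h : Bdd B a) {η : ℝ} (hη : 0 < η) :
    ∀ᶠ n in atTop, liminf a atTop - η < a n :=
  eventually_lt_of_lt_liminf (by linarith) h.below

theorem frequently_lt {B : ℝ} {a : ℕ → ℝ} (h : Bdd B a) {η : ℝ} (hη : 0 < η) :
    ∃ᶠ n in atTop, a n < liminf a atTop + η :=
  frequently_lt_of_liminf_lt h.above.isCoboundedUnder_flip (by linarith)

theorem liminf_le_limsup' {B : ℝ} {a : ℕ → ℝ} (h : Bdd B a) :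
    liminf a atTop ≤ limsup a atTop :=
  liminf_le_limsup h.above h.below

theorem limsup_le_of {B B' : ℝ} {a b : ℕ → ℝ} (ha : Bdd B a) (hb : Bdd B' b) {δ : ℝ}
    (h : ∀ᶠ n in atTop, a n ≤ b n + δ) : limsup a atTop ≤ limsup b atTop + δ := by
  refine le_of_forall_pos_le_add fun ε hε => ?_
  have h1 := frequently_gt ha (half_pos hε)
  have h2 := eventually_lt hb (half_pos hε)
  obtain ⟨n, h3, h4, h5⟩ := (h1.and_eventually (h2.and h)).exists
  linarith

theorem liminf_le_of {B B' : ℝ} {a b : ℕ → ℝ} (ha : Bdd B a) (hb : Bdd B' b) {δ : ℝ}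
    (h : ∀ᶠ n in atTop, a n ≤ b n + δ) : liminf a atTop ≤ liminf b atTop + δ := by
  refine le_of_forall_pos_le_add fun ε hε => ?_
  have h1 := frequently_lt hb (half_pos hε)
  have h2 := eventually_gt ha (half_pos hε)
  obtain ⟨n, h3, h4, h5⟩ := (h1.and_eventually (h2.and h)).exists
  linarith

theorem abs_limsup_sub_le {B B' : ℝ} {a b : ℕ → ℝ} (ha : Bdd B a) (hb : Bdd B' b) {δ : ℝ}
    (h : ∀ᶠ n in atTop, |a n - b n| ≤ δ) : |limsup a atTop - limsup b atTop| ≤ δ := by
  rw [abs_le]
  constructor
  · have := limsup_le_of hb ha (δ := δ) (h.mono fun n hn => by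
      have := (abs_le.1 hn).1; linarith)
    linarith
  · have := limsup_le_of ha hb (δ := δ) (h.mono fun n hn => by
      have := (abs_le.1 hn).2; linarith)
    linarith

theorem abs_liminf_sub_le {B B' : ℝ} {a b : ℕ → ℝ} (ha : Bdd B a) (hb : Bdd B' b) {δ : ℝ}
    (h : ∀ᶠ n in atTop, |a n - b n| ≤ δ) : |liminf a atTop - liminf b atTop| ≤ δ := by
  rw [abs_le]
  constructor
  · have := liminf_le_of hb ha (δ := δ) (h.mono fun n hn => by
      have := (abs_le.1 hn).1; linarith)
    linarith
  · have := liminf_le_of ha hb (δ := δ) (h.mono fun n hn => by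
      have := (abs_le.1 hn).2; linarith)
    linarith

theorem limsup_eq_of_tendsto {B B' : ℝ} {a b : ℕ → ℝ} (ha : Bdd B a) (hb : Bdd B' b)
    (h : Tendsto (fun n => a n - b n) atTop (𝓝 0)) : limsup a atTop = limsup b atTop := by
  have : |limsup a atTop - limsup b atTop| ≤ 0 := by
    refine le_of_forall_pos_le_add fun ε hε => ?_
    rw [zero_add]
    refine abs_limsup_sub_le ha hb ?_
    have := (Metric.tendsto_nhds.1 h ε hε)
    exact this.mono fun n hn => by simpa [Real.dist_eq] using hn.le
  exact sub_eq_zero.1 (abs_eq_zero.1 (le_antisymm this (abs_nonneg _)))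

theorem liminf_eq_of_tendsto {B B' : ℝ} {a b : ℕ → ℝ} (ha : Bdd B a) (hb : Bdd B' b)
    (h : Tendsto (fun n => a n - b n) atTop (𝓝 0)) : liminf a atTop = liminf b atTop := by
  have : |liminf a atTop - liminf b atTop| ≤ 0 := by
    refine le_of_forall_pos_le_add fun ε hε => ?_
    rw [zero_add]
    refine abs_liminf_sub_le ha hb ?_
    have := (Metric.tendsto_nhds.1 h ε hε)
    exact this.mono fun n hn => by simpa [Real.dist_eq] using hn.le
  exact sub_eq_zero.1 (abs_eq_zero.1 (le_antisymm this (abs_nonneg _)))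

/-! ### The forward recursion -/

/-- the carry -/
noncomputable def carry (a : ℕ → ℝ) (t : ℝ) : ℕ → ℝ
  | 0 => t
  | n + 1 => cl (liminf a atTop - a n) (limsup a atTop - a n) (carry a t n)

theorem carry_zero (a : ℕ → ℝ) (t : ℝ) : carry a t 0 = t := rfl

theorem carry_succ (a : ℕ → ℝ) (t : ℝ) (n : ℕ) :
    carry a t (n + 1) = cl (liminf a atTop - a n) (limsup a atTop - a n) (carry a t n) := rfl

/-- stays small -/
theorem carry_small_step {B : ℝ} {a : ℕ → ℝ} (t : ℝ) {η : ℝ} {n : ℕ}
    (h1 : a n ≤ limsup a atTop + η) (h2 : liminf a atTop - η ≤ a n)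
    (h : |carry a t n| ≤ η) : |carry a t (n + 1)| ≤ η := by
  rw [carry_succ]
  exact cl_abs_le h (by linarith) (by linarith)

theorem carry_tendsto {B : ℝ} {a : ℕ → ℝ} (ha : Bdd B a) (t : ℝ) :
    Tendsto (carry a t) atTop (𝓝 0) := by
  rw [Metric.tendsto_nhds]
  intro ε hε
  obtain ⟨η, hη, hηε⟩ : ∃ η : ℝ, 0 < η ∧ η < ε := ⟨ε / 2, by linarith, by linarith⟩
  have hlU := liminf_le_limsup' ha
  obtain ⟨N, hN⟩ := eventually_atTop.1 ((eventually_lt ha hη).and (eventually_gt ha hη))
  -- once small, always small
  have key : ∀ m, N ≤ m → |carry a t m| ≤ η → ∀ k, |carry a t (m + k)| ≤ η := by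
    intro m hm h k
    induction k with
    | zero => simpa using h
    | succ k ih =>
      exact carry_small_step (B := B) t (hN (m + k) (by omega)).1.le (hN (m + k) (by omega)).2.le ih
  -- it becomes small
  have hex : ∃ m, N ≤ m ∧ |carry a t m| ≤ η := by
    by_contra hcon
    push Not at hcon
    rcases lt_or_ge 0 (carry a t N) with hpos | hneg
    · -- positive forever
      have hstep : ∀ k, η < carry a t (N + k) := by
        intro k
        induction k with
        | zero =>
          have := hcon N le_rfl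
          rwa [abs_of_pos hpos] at this
        | succ k ih =>
          have h1 := hcon (N + (k + 1)) (by omega)
          have h2 : -η ≤ carry a t (N + (k + 1)) := by
            have : N + (k + 1) = (N + k) + 1 := by ring
            rw [this, carry_succ]
            unfold cl
            refine le_trans (le_min ?_ ?_) (le_max_right _ _)
            · linarith
            · have := (hN (N + k) (by omega)).1; linarith
          rcases lt_abs.1 h1 with h3 | h3
          · exact h3
          · linarith
      obtain ⟨n, hn1, hn2⟩ := ((frequently_gt ha hη).and_eventually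
        (eventually_ge_atTop N)).exists
      obtain ⟨k, rfl⟩ := Nat.exists_eq_add_of_le hn2
      have h1 := hstep (k + 1)
      have : N + (k + 1) = (N + k) + 1 := by ring
      rw [this, carry_succ] at h1
      unfold cl at h1
      have h2 : max (liminf a atTop - a (N + k)) (min (carry a t (N + k))
          (limsup a atTop - a (N + k))) ≤ η := by
        refine max_le ?_ (le_trans (min_le_right _ _) (by linarith))
        linarith
      linarith
    · have hstep : ∀ k, carry a t (N + k) < -η := by
        intro k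
        induction k with
        | zero =>
          have := hcon N le_rfl
          rw [abs_of_nonpos hneg] at this
          simpa using (by linarith : carry a t N < -η)
        | succ k ih =>
          have h1 := hcon (N + (k + 1)) (by omega)
          have h2 : carry a t (N + (k + 1)) ≤ η := by
            have : N + (k + 1) = (N + k) + 1 := by ring
            rw [this, carry_succ]
            unfold cl
            refine max_le ?_ (le_trans (min_le_left _ _) (by linarith))
            have := (hN (N + k) (by omega)).2; linarith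
          rcases lt_abs.1 h1 with h3 | h3
          · linarith
          · linarith
      obtain ⟨n, hn1, hn2⟩ := ((frequently_lt ha hη).and_eventually
        (eventually_ge_atTop N)).exists
      obtain ⟨k, rfl⟩ := Nat.exists_eq_add_of_le hn2
      have h1 := hstep (k + 1)
      have : N + (k + 1) = (N + k) + 1 := by ring
      rw [this, carry_succ] at h1
      unfold cl at h1
      have h2 : -η ≤ max (liminf a atTop - a (N + k)) (min (carry a t (N + k))
          (limsup a atTop - a (N + k))) :=
        le_trans (by linarith) (le_max_left _ _)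
      linarith
  obtain ⟨m, hm, hsm⟩ := hex
  filter_upwards [eventually_ge_atTop m] with n hn
  obtain ⟨k, rfl⟩ := Nat.exists_eq_add_of_le hn
  rw [Real.dist_eq, sub_zero]
  exact lt_of_le_of_lt (key m hm hsm k) hηε

/-- Lipschitz dependence of the carry -/
theorem carry_lip {B B' : ℝ} {a a' : ℕ → ℝ} (ha : Bdd B a) (ha' : Bdd B' a') (t t' : ℝ) {δ : ℝ}
    (h : ∀ n, |a n - a' n| ≤ δ) (n : ℕ) :
    |carry a t n - carry a' t' n| ≤ max |t - t'| (2 * δ) := by
  have hU := abs_limsup_sub_le ha ha' (Eventually.of_forall h)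
  have hl := abs_liminf_sub_le ha ha' (Eventually.of_forall h)
  induction n with
  | zero => simp [carry_zero]
  | succ n ih =>
    rw [carry_succ, carry_succ]
    refine cl_sub_le ?_ ?_ ih
    · refine le_trans ?_ (le_max_right _ _)
      have h1 := h n
      rw [abs_le] at *
      constructor <;> linarith [h1.1, h1.2, hl.1, hl.2]
    · refine le_trans ?_ (le_max_right _ _)
      have h1 := h n
      rw [abs_le] at *
      constructor <;> linarith [h1.1, h1.2, hU.1, hU.2]

/-- the image sequence -/
noncomputable def img (a : ℕ → ℝ) (t : ℝ) (n : ℕ) : ℝ := a n + carry a t n + carry a t (n + 1)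

/-- the displacement -/
noncomputable def disp (a : ℕ → ℝ) (t : ℝ) (n : ℕ) : ℝ := carry a t n + carry a t (n + 1)

theorem img_eq (a : ℕ → ℝ) (t : ℝ) (n : ℕ) : img a t n = a n + disp a t n := by
  unfold img disp; ring

theorem disp_tendsto {B : ℝ} {a : ℕ → ℝ} (ha : Bdd B a) (t : ℝ) :
    Tendsto (disp a t) atTop (𝓝 0) := by
  have h1 := carry_tendsto ha t
  have h2 := (tendsto_add_atTop_iff_nat 1).2 h1
  have h3 := h1.add h2
  rw [add_zero] at h3
  exact h3

theorem disp_lip {B B' : ℝ} {a a' : ℕ → ℝ} (ha : Bdd B a) (ha' : Bdd B' a') (t t' : ℝ) {δ : ℝ}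
    (h : ∀ n, |a n - a' n| ≤ δ) (n : ℕ) :
    |disp a t n - disp a' t' n| ≤ 2 * max |t - t'| (2 * δ) := by
  have h1 := carry_lip ha ha' t t' h n
  have h2 := carry_lip ha ha' t t' h (n + 1)
  unfold disp
  have : carry a t n + carry a t (n + 1) - (carry a' t' n + carry a' t' (n + 1)) =
    (carry a t n - carry a' t' n) + (carry a t (n + 1) - carry a' t' (n + 1)) := by ring
  rw [this]
  refine le_trans (abs_add_le _ _) ?_
  linarith

theorem img_limsup {B B' : ℝ} {a : ℕ → ℝ} (ha : Bdd B a) (t : ℝ) (hb : Bdd B' (img a t)) :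
    limsup (img a t) atTop = limsup a atTop := by
  refine limsup_eq_of_tendsto hb ha ?_
  refine (disp_tendsto ha t).congr fun n => ?_
  rw [img_eq]; ring

theorem img_liminf {B B' : ℝ} {a : ℕ → ℝ} (ha : Bdd B a) (t : ℝ) (hb : Bdd B' (img a t)) :
    liminf (img a t) atTop = liminf a atTop := by
  refine liminf_eq_of_tendsto hb ha ?_
  refine (disp_tendsto ha t).congr fun n => ?_
  rw [img_eq]; ring

/-- the carry satisfies the backward recursion -/
theorem carry_back {B B' : ℝ} {a : ℕ → ℝ} (ha : Bdd B a) (t : ℝ) (hb : Bdd B' (img a t))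
    (n : ℕ) : carry a t n = cl (img a t n - limsup (img a t) atTop)
      (img a t n - liminf (img a t) atTop) (carry a t (n + 1)) := by
  rw [img_limsup ha t hb, img_liminf ha t hb]
  exact cl_inv (liminf_le_limsup' ha) rfl (carry_succ a t n)

/-- Lipschitz dependence of the carry on the image sequence -/
theorem carry_lip_back {B B' D D' : ℝ} {a a' : ℕ → ℝ} (ha : Bdd B a) (ha' : Bdd B' a')
    (t t' : ℝ) (hb : Bdd D (img a t)) (hb' : Bdd D' (img a' t')) {δ : ℝ}
    (h : ∀ n, |img a t n - img a' t' n| ≤ δ) (n : ℕ) :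
    |carry a t n - carry a' t' n| ≤ 2 * δ := by
  have hU := abs_limsup_sub_le hb hb' (Eventually.of_forall h)
  have hl := abs_liminf_sub_le hb hb' (Eventually.of_forall h)
  have hstep : ∀ k n, |carry a t n - carry a' t' n| ≤
      max |carry a t (n + k) - carry a' t' (n + k)| (2 * δ) := by
    intro k
    induction k with
    | zero => intro n; simp
    | succ k ih =>
      intro n
      rw [carry_back ha t hb n, carry_back ha' t' hb' n]
      refine cl_sub_le ?_ ?_ ?_
      · refine le_trans ?_ (le_max_right _ _)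
        have h1 := h n
        rw [abs_le] at *
        constructor <;> linarith [h1.1, h1.2, hU.1, hU.2]
      · refine le_trans ?_ (le_max_right _ _)
        have h1 := h n
        rw [abs_le] at *
        constructor <;> linarith [h1.1, h1.2, hl.1, hl.2]
      · have := ih (n + 1)
        have e : n + 1 + k = n + (k + 1) := by ring
        rwa [e] at this
  have hδ : 0 ≤ δ := le_trans (abs_nonneg _) (h 0)
  refine le_of_forall_pos_le_add fun ε hε => ?_
  have h1 := (carry_tendsto ha t).sub (carry_tendsto ha' t')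
  rw [sub_zero] at h1
  obtain ⟨k, hk⟩ := ((Metric.tendsto_nhds.1 h1 ε hε).and (eventually_ge_atTop n)).exists
  obtain ⟨k, rfl⟩ := Nat.exists_eq_add_of_le hk.2
  refine le_trans (hstep k n) (max_le ?_ (by linarith))
  have := hk.1
  rw [Real.dist_eq, sub_zero] at this
  linarith

/-! ### The backward recursion -/

/-- the finite backward recursion -/
noncomputable def back (z : ℕ → ℝ) : ℕ → ℕ → ℝ
  | 0, _ => 0
  | k + 1, n => cl (z n - limsup z atTop) (z n - liminf z atTop) (back z k (n + 1))

theorem back_small {z : ℕ → ℝ} {η : ℝ} (hη : 0 ≤ η) {N : ℕ}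
    (hN : ∀ m, N ≤ m → z m ≤ limsup z atTop + η ∧ liminf z atTop - η ≤ z m) :
    ∀ k n, N ≤ n → |back z k n| ≤ η := by
  intro k
  induction k with
  | zero => intro n _; simpa [back] using hη
  | succ k ih =>
    intro n hn
    have h1 := hN n hn
    exact cl_abs_le (ih (n + 1) (by omega)) (by linarith [h1.1]) (by linarith [h1.2])

theorem back_diff {z : ℕ → ℝ} {η : ℝ} (hη : 0 ≤ η) {N : ℕ}
    (hN : ∀ m, N ≤ m → z m ≤ limsup z atTop + η ∧ liminf z atTop - η ≤ z m) (j : ℕ) :
    ∀ k n, N ≤ n + k → |back z k n - back z (k + j) n| ≤ η := by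
  intro k
  induction k with
  | zero =>
    intro n hn
    rw [zero_add]
    simp only [back, zero_sub, abs_neg]
    exact back_small hη hN j n (by omega)
  | succ k ih =>
    intro n hn
    have e : k + 1 + j = (k + j) + 1 := by ring
    rw [e]
    refine cl_sub_le ?_ ?_ (ih (n + 1) (by omega))
    · simpa using hη
    · simpa using hη

theorem exists_back {B : ℝ} {z : ℕ → ℝ} (hz : Bdd B z) :
    ∃ y : ℕ → ℝ, Tendsto y atTop (𝓝 0) ∧ ∀ n, y n = cl (z n - limsup z atTop)
      (z n - liminf z atTop) (y (n + 1)) := by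
  have hcau : ∀ n, CauchySeq (fun k => back z k n) := by
    intro n
    rw [Metric.cauchySeq_iff']
    intro ε hε
    obtain ⟨N, hN⟩ := eventually_atTop.1 ((eventually_lt hz (half_pos hε)).and
      (eventually_gt hz (half_pos hε)))
    refine ⟨N, fun k hk => ?_⟩
    obtain ⟨j, rfl⟩ := Nat.exists_eq_add_of_le hk
    rw [dist_comm, Real.dist_eq]
    have := back_diff (half_pos hε).le (fun m hm => ⟨(hN m hm).1.le, (hN m hm).2.le⟩) j N n
      (by omega)
    linarith
  have hlim : ∀ n, ∃ y, Tendsto (fun k => back z k n) atTop (𝓝 y) := fun n =>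
    cauchySeq_tendsto_of_complete (hcau n)
  choose y hy using hlim
  refine ⟨y, ?_, ?_⟩
  · rw [Metric.tendsto_nhds]
    intro ε hε
    obtain ⟨N, hN⟩ := eventually_atTop.1 ((eventually_lt hz (half_pos hε)).and
      (eventually_gt hz (half_pos hε)))
    filter_upwards [eventually_ge_atTop N] with n hn
    have h1 : |y n| ≤ ε / 2 := by
      refine le_of_tendsto (hy n).abs (Eventually.of_forall fun k => ?_)
      exact back_small (half_pos hε).le (fun m hm => ⟨(hN m hm).1.le, (hN m hm).2.le⟩) k n hn
    rw [Real.dist_eq, sub_zero]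
    linarith
  · intro n
    have h1 : Tendsto (fun k => back z (k + 1) n) atTop (𝓝 (y n)) :=
      (tendsto_add_atTop_iff_nat 1).2 (hy n)
    have h2 : Tendsto (fun k => back z (k + 1) n) atTop (𝓝 (cl (z n - limsup z atTop)
        (z n - liminf z atTop) (y (n + 1)))) := by
      have : Continuous fun x => cl (z n - limsup z atTop) (z n - liminf z atTop) x := by
        unfold cl; fun_prop
      exact (this.tendsto _).comp (hy (n + 1))
    exact tendsto_nhds_unique h1 h2

/-- surjectivity -/
theorem exists_preimage {B : ℝ} {z : ℕ → ℝ} (hz : Bdd B z) :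
    ∃ (d : ℕ → ℝ) (t : ℝ), Tendsto d atTop (𝓝 0) ∧ disp (fun n => z n - d n) t = d := by
  obtain ⟨y, hy0, hy⟩ := exists_back hz
  have hy1 : Tendsto (fun n => y (n + 1)) atTop (𝓝 0) := (tendsto_add_atTop_iff_nat 1).2 hy0
  have hd : Tendsto (fun n => y n + y (n + 1)) atTop (𝓝 0) := by simpa using hy0.add hy1
  refine ⟨fun n => y n + y (n + 1), y 0, hd, ?_⟩
  obtain ⟨D, hD⟩ := hd.bddAbove_range
  obtain ⟨D', hD'⟩ := hd.bddBelow_range
  have ha : Bdd (B + (|D| + |D'|)) (fun n => z n - (y n + y (n + 1))) := by
    intro n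
    have h1 : y n + y (n + 1) ≤ D := hD ⟨n, rfl⟩
    have h2 : D' ≤ y n + y (n + 1) := hD' ⟨n, rfl⟩
    have h3 := abs_le.1 (hz n)
    rw [abs_le]
    constructor <;> linarith [le_abs_self D, neg_abs_le D', neg_abs_le D, le_abs_self D', abs_nonneg D, abs_nonneg D']
  have hU : limsup (fun n => z n - (y n + y (n + 1))) atTop = limsup z atTop := by
    refine limsup_eq_of_tendsto ha hz ?_
    have := hd.neg
    rw [neg_zero] at this
    refine this.congr fun n => by ring
  have hl : liminf (fun n => z n - (y n + y (n + 1))) atTop = liminf z atTop := by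
    refine liminf_eq_of_tendsto ha hz ?_
    have := hd.neg
    rw [neg_zero] at this
    refine this.congr fun n => by ring
  have hc : ∀ n, carry (fun n => z n - (y n + y (n + 1))) (y 0) n = y n := by
    intro n
    induction n with
    | zero => rfl
    | succ n ih =>
      rw [carry_succ, ih, hU, hl]
      exact (cl_inv' (liminf_le_limsup' hz) (by ring) (hy n)).symm
  funext n
  unfold disp
  rw [hc, hc]

end Pool.Agent.Lib.MP_4b6a63_an
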