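import Mathlib
import Pool.Agent.Lib.MP_4b6a63_an.Hotel

set_option autoImplicit false

open Filter Topology

namespace Pool.Agent.Lib.MP_4b6a63_an

open scoped ZeroAtInfty

/-- a null sequence as an element of `c₀` -/
noncomputable def mk0 (d : ℕ → ℝ) (h : Tendsto d atTop (𝓝 0)) : C₀(ℕ, ℝ) where
  toFun := d
  continuous_toFun := continuous_of_discreteTopology
  zero_at_infty' := by
    rw [Filter.cocompact_eq_cofinite ℕ, Nat.cofinite_eq_atTop]
    exact h

@[simp] theorem mk0_apply (d : ℕ → ℝ) (h : Tendsto d atTop (𝓝 0)) (n : ℕ) : mk0 d h n = d n := rfl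

theorem tendsto0 (u : C₀(ℕ, ℝ)) : Tendsto (fun n => u n) atTop (𝓝 0) := by
  have := u.zero_at_infty'
  rw [Filter.cocompact_eq_cofinite ℕ, Nat.cofinite_eq_atTop] at this
  exact this

theorem abs_apply_le (u : C₀(ℕ, ℝ)) (n : ℕ) : |u n| ≤ ‖u‖ := by
  rw [← ZeroAtInftyContinuousMap.norm_toBCF_eq_norm]
  exact u.toBCF.norm_coe_le_norm n

theorem norm_le_of {u : C₀(ℕ, ℝ)} {C : ℝ} (hC : 0 ≤ C) (h : ∀ n, |u n| ≤ C) : ‖u‖ ≤ C := by
  rw [← ZeroAtInftyContinuousMap.norm_toBCF_eq_norm, BoundedContinuousFunction.norm_le hC]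
  exact h

section core

variable {Y : Type*} [NormedAddCommGroup Y] [NormedSpace ℝ Y]

theorem core (J : C₀(ℕ, ℝ) → Y) (A : ℝ) (hA : 0 ≤ A)
    (hJ : ∀ u v, ‖J u - J v‖ ≤ A * ‖u - v‖) (g : ℕ → Y →L[ℝ] ℝ) (K : ℝ) (hK : 0 ≤ K)
    (hg : ∀ n y, |g n y| ≤ K * ‖y‖) (hgJ : ∀ n u, g n (J u) = u n) :
    ∃ F : ℝ × Y → Y, Function.Bijective F ∧ ∃ C : ℝ, 0 ≤ C ∧ (∀ p q, ‖F p - F q‖ ≤ C * ‖p - q‖) ∧
      ∀ p q, ‖p - q‖ ≤ C * ‖F p - F q‖ := by
  have hB : ∀ y : Y, Bdd (K * ‖y‖) (fun n => g n y) := fun y n => hg n y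
  set D : ℝ × Y → C₀(ℕ, ℝ) := fun p => mk0 (disp (fun n => g n p.2) p.1)
    (disp_tendsto (hB p.2) p.1) with hD
  set F : ℝ × Y → Y := fun p => p.2 + J (D p) with hF
  have hgF : ∀ n p, g n (F p) = img (fun n => g n p.2) p.1 n := by
    intro n p
    rw [img_eq, hF]
    simp only [map_add, hgJ]
    rfl
  have hBi : ∀ p, Bdd (K * ‖F p‖) (img (fun n => g n p.2) p.1) := by
    intro p n
    rw [← hgF n p]
    exact hg n _
  have hup : ∀ p q, ‖F p - F q‖ ≤ (1 + A * (2 + 4 * K)) * ‖p - q‖ := by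
    intro p q
    have h1 : ‖p.2 - q.2‖ ≤ ‖p - q‖ := norm_snd_le (p - q)
    have h2 : |p.1 - q.1| ≤ ‖p - q‖ := norm_fst_le (p - q)
    have h3 : ‖D p - D q‖ ≤ 2 * ‖p - q‖ + 4 * K * ‖p - q‖ := by
      refine norm_le_of (by positivity) fun n => ?_
      have h4 : ∀ n, |(fun n => g n p.2) n - (fun n => g n q.2) n| ≤ K * ‖p - q‖ := by
        intro n
        have : g n p.2 - g n q.2 = g n (p.2 - q.2) := by rw [map_sub]
        simp only
        rw [this]
        exact le_trans (hg n _) (mul_le_mul_of_nonneg_left h1 hK)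
      have h5 := disp_lip (hB p.2) (hB q.2) p.1 q.1 h4 n
      have h6 : (D p - D q) n = disp (fun n => g n p.2) p.1 n - disp (fun n => g n q.2) q.1 n := rfl
      rw [h6]
      refine le_trans h5 ?_
      have h7 : max |p.1 - q.1| (2 * (K * ‖p - q‖)) ≤ ‖p - q‖ + 2 * (K * ‖p - q‖) := by
        refine max_le ?_ ?_
        · have : 0 ≤ 2 * (K * ‖p - q‖) := by positivity
          linarith
        · have : 0 ≤ ‖p - q‖ := norm_nonneg _
          linarith
      linarith
    have h8 : F p - F q = (p.2 - q.2) + (J (D p) - J (D q)) := by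
      simp only [hF]; abel
    rw [h8]
    refine le_trans (norm_add_le _ _) ?_
    have h9 := hJ (D p) (D q)
    have h10 : A * ‖D p - D q‖ ≤ A * (2 * ‖p - q‖ + 4 * K * ‖p - q‖) :=
      mul_le_mul_of_nonneg_left h3 hA
    linarith
  have hlow : ∀ p q, ‖p - q‖ ≤ (1 + 4 * A * K + 2 * K) * ‖F p - F q‖ := by
    intro p q
    have h1 : ∀ n, |img (fun n => g n p.2) p.1 n - img (fun n => g n q.2) q.1 n| ≤
        K * ‖F p - F q‖ := by
      intro n
      rw [← hgF, ← hgF, ← map_sub]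
      exact hg n _
    have h2 := carry_lip_back (hB p.2) (hB q.2) p.1 q.1 (hBi p) (hBi q) h1
    have h3 : |p.1 - q.1| ≤ 2 * (K * ‖F p - F q‖) := h2 0
    have h4 : ‖D p - D q‖ ≤ 4 * (K * ‖F p - F q‖) := by
      refine norm_le_of (by positivity) fun n => ?_
      have h6 : (D p - D q) n = (carry (fun n => g n p.2) p.1 n - carry (fun n => g n q.2) q.1 n) +
          (carry (fun n => g n p.2) p.1 (n + 1) - carry (fun n => g n q.2) q.1 (n + 1)) := by
        have : (D p - D q) n = disp (fun n => g n p.2) p.1 n - disp (fun n => g n q.2) q.1 n := rfl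
        rw [this]
        unfold disp
        ring
      rw [h6]
      refine le_trans (abs_add_le _ _) ?_
      have := h2 n
      have := h2 (n + 1)
      linarith
    have h5 : ‖p.2 - q.2‖ ≤ ‖F p - F q‖ + A * (4 * (K * ‖F p - F q‖)) := by
      have h8 : p.2 - q.2 = (F p - F q) - (J (D p) - J (D q)) := by
        simp only [hF]; abel
      rw [h8]
      refine le_trans (norm_sub_le _ _) ?_
      have h9 := hJ (D p) (D q)
      have h10 : A * ‖D p - D q‖ ≤ A * (4 * (K * ‖F p - F q‖)) :=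
        mul_le_mul_of_nonneg_left h4 hA
      linarith
    have hnn : 0 ≤ ‖F p - F q‖ := norm_nonneg _
    have hKn : 0 ≤ K * ‖F p - F q‖ := mul_nonneg hK hnn
    have hAKn : 0 ≤ A * (K * ‖F p - F q‖) := mul_nonneg hA hKn
    rw [Prod.norm_def]
    refine max_le ?_ ?_
    · have : ‖(p - q).1‖ = |p.1 - q.1| := rfl
      rw [this]
      nlinarith
    · have : (p - q).2 = p.2 - q.2 := rfl
      rw [this]
      nlinarith
  refine ⟨F, ⟨?_, ?_⟩, (1 + A * (2 + 4 * K)) + (1 + 4 * A * K + 2 * K), by positivity, ?_, ?_⟩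
  · intro p q hpq
    have := hlow p q
    rw [hpq, sub_self, norm_zero, mul_zero] at this
    exact sub_eq_zero.1 (norm_eq_zero.1 (le_antisymm this (norm_nonneg _)))
  · intro w
    obtain ⟨d, t, hd, hdt⟩ := exists_preimage (hB w)
    refine ⟨(t, w - J (mk0 d hd)), ?_⟩
    have h1 : (fun n => g n (w - J (mk0 d hd))) = fun n => g n w - d n := by
      funext n
      rw [map_sub, hgJ, mk0_apply]
    have h2 : D (t, w - J (mk0 d hd)) = mk0 d hd := by
      ext n
      change disp (fun n => g n (w - J (mk0 d hd))) t n = d n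
      rw [h1, hdt]
    change (w - J (mk0 d hd)) + J (D (t, w - J (mk0 d hd))) = w
    rw [h2]
    abel
  · intro p q
    refine le_trans (hup p q) (mul_le_mul_of_nonneg_right ?_ (norm_nonneg _))
    have : 0 ≤ 1 + 4 * A * K + 2 * K := by positivity
    linarith
  · intro p q
    refine le_trans (hlow p q) (mul_le_mul_of_nonneg_right ?_ (norm_nonneg _))
    have : 0 ≤ 1 + A * (2 + 4 * K) := by positivity
    linarith

end core

/-! ### Unit vectors and truncation -/

/-- the unit vector -/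
noncomputable def e0 (n : ℕ) : C₀(ℕ, ℝ) :=
  mk0 (fun m => if m = n then 1 else 0) (by
    refine tendsto_const_nhds.congr' ?_
    filter_upwards [eventually_gt_atTop n] with m hm
    rw [if_neg (by omega)])

/-- truncation -/
noncomputable def tr (u : C₀(ℕ, ℝ)) (N : ℕ) : C₀(ℕ, ℝ) :=
  mk0 (fun m => if m < N then u m else 0) (by
    refine tendsto_const_nhds.congr' ?_
    filter_upwards [eventually_ge_atTop N] with m hm
    rw [if_neg (by omega)])

theorem functional_zero (φ : C₀(ℕ, ℝ) →L[ℝ] ℝ) (h : ∀ n, φ (e0 n) = 0) (u : C₀(ℕ, ℝ)) :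
    φ u = 0 := by
  have h1 : ∀ N, φ (tr u N) = 0 := by
    intro N
    induction N with
    | zero =>
      have : tr u 0 = 0 := by
        ext m; simp [tr]
      rw [this, map_zero]
    | succ N ih =>
      have : tr u (N + 1) = tr u N + u N • e0 N := by
        ext m
        simp only [tr, e0, mk0_apply, ZeroAtInftyContinuousMap.add_apply,
          ZeroAtInftyContinuousMap.smul_apply, smul_eq_mul, mul_ite, mul_one, mul_zero]
        rcases lt_trichotomy m N with hm | hm | hm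
        · rw [if_pos (by omega), if_pos hm, if_neg (by omega), add_zero]
        · subst hm; simp
        · rw [if_neg (by omega), if_neg (by omega), if_neg (by omega), add_zero]
      rw [this, map_add, map_smul, ih, h, smul_zero, add_zero]
  have h2 : |φ u| ≤ 0 := by
    refine le_of_forall_pos_le_add fun ε hε => ?_
    rw [zero_add]
    have hpos : 0 < ‖φ‖ + 1 := by positivity
    obtain ⟨N, hN⟩ := eventually_atTop.1 (Metric.tendsto_nhds.1 (tendsto0 u) (ε / (‖φ‖ + 1))
      (by positivity))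
    have h3 : ‖u - tr u N‖ ≤ ε / (‖φ‖ + 1) := by
      refine norm_le_of (by positivity) fun n => ?_
      have : (u - tr u N) n = u n - if n < N then u n else 0 := rfl
      rw [this]
      split_ifs with hn
      · rw [sub_self, abs_zero]; positivity
      · have := hN n (by omega)
        rw [Real.dist_eq, sub_zero] at this
        rw [sub_zero]; exact this.le
    have h4 : φ u = φ (u - tr u N) := by rw [map_sub, h1, sub_zero]
    rw [h4]
    calc |φ (u - tr u N)| ≤ ‖φ‖ * ‖u - tr u N‖ := φ.le_opNorm _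
      _ ≤ ‖φ‖ * (ε / (‖φ‖ + 1)) := mul_le_mul_of_nonneg_left h3 φ.opNorm_nonneg
      _ ≤ (‖φ‖ + 1) * (ε / (‖φ‖ + 1)) :=
          mul_le_mul_of_nonneg_right (by linarith) (by positivity)
      _ = ε := by field_simp
  exact abs_eq_zero.1 (le_antisymm h2 (abs_nonneg _))

/-- shift by `k` -/
noncomputable def sh (k : ℕ) (u : C₀(ℕ, ℝ)) : C₀(ℕ, ℝ) :=
  mk0 (fun m => if m < k then 0 else u (m - k)) (by
    rw [← tendsto_add_atTop_iff_nat k]
    refine (tendsto0 u).congr fun m => ?_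
    simp)

theorem sh_apply (k : ℕ) (u : C₀(ℕ, ℝ)) (n : ℕ) : sh k u (n + k) = u n := by
  simp [sh]

theorem sh_lip (k : ℕ) (u v : C₀(ℕ, ℝ)) : ‖sh k u - sh k v‖ ≤ ‖u - v‖ := by
  refine norm_le_of (norm_nonneg _) fun n => ?_
  have : (sh k u - sh k v) n = (if n < k then 0 else u (n - k)) - if n < k then 0 else v (n - k) :=
    rfl
  rw [this]
  split_ifs with hn
  · simp
  · exact abs_apply_le (u - v) (n - k)

/-! ### Coordinate functionals -/

section functionals

variable {X : Type*} [NormedAddCommGroup X] [NormedSpace ℝ X]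

theorem exists_functionals (J : C₀(ℕ, ℝ) →L[ℝ] X) (c : ℝ) (hc : 0 < c)
    (hJ : ∀ u, c * ‖u‖ ≤ ‖J u‖) :
    ∃ g : ℕ → X →L[ℝ] ℝ, (∀ n y, |g n y| ≤ c⁻¹ * ‖y‖) ∧ ∀ n u, g n (J u) = u n := by
  have hinj : Function.Injective J := by
    intro u v huv
    have := hJ (u - v)
    rw [map_sub, huv, sub_self, norm_zero] at this
    have h2 : ‖u - v‖ ≤ 0 := by
      by_contra hcon
      push Not at hcon
      have := mul_pos hc hcon
      linarith
    exact sub_eq_zero.1 (norm_eq_zero.1 (le_antisymm h2 (norm_nonneg _)))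
  have hex : ∀ n : ℕ, ∃ g : X →L[ℝ] ℝ, (∀ y, |g y| ≤ c⁻¹ * ‖y‖) ∧ ∀ u, g (J u) = u n := by
    intro n
    let p : Submodule ℝ X := LinearMap.range J.toLinearMap
    let E : C₀(ℕ, ℝ) ≃ₗ[ℝ] p := LinearEquiv.ofInjective J.toLinearMap hinj
    let ev : C₀(ℕ, ℝ) →ₗ[ℝ] ℝ :=
      { toFun := fun u => u n
        map_add' := fun _ _ => rfl
        map_smul' := fun _ _ => rfl }
    let f0 : p →ₗ[ℝ] ℝ := ev ∘ₗ E.symm.toLinearMap
    have hf0 : ∀ y : p, ‖f0 y‖ ≤ c⁻¹ * ‖y‖ := by
      intro y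
      have h1 : E (E.symm y) = y := E.apply_symm_apply y
      have h2 : J (E.symm y) = (y : X) := by
        have := congrArg Subtype.val h1
        exact this
      have h3 := hJ (E.symm y)
      rw [h2] at h3
      have h4 : ‖f0 y‖ ≤ ‖E.symm y‖ := abs_apply_le (E.symm y) n
      refine le_trans h4 ?_
      rw [inv_mul_eq_div, le_div_iff₀ hc, mul_comm]
      exact h3
    let f : p →L[ℝ] ℝ := f0.mkContinuous c⁻¹ hf0
    obtain ⟨g, hg1, hg2⟩ := exists_extension_norm_eq p f
    refine ⟨g, fun y => ?_, fun u => ?_⟩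
    · have h5 : ‖g‖ ≤ c⁻¹ := by
        rw [hg2]
        exact f0.mkContinuous_norm_le (by positivity) hf0
      have h6 := g.le_opNorm y
      rw [Real.norm_eq_abs] at h6
      exact le_trans h6 (mul_le_mul_of_nonneg_right h5 (norm_nonneg _))
    · have h7 : J u ∈ p := ⟨u, rfl⟩
      have h8 := hg1 ⟨J u, h7⟩
      have h9 : (⟨J u, h7⟩ : p) = E u := Subtype.ext rfl
      have h10 : f ⟨J u, h7⟩ = u n := by
        change ev (E.symm ⟨J u, h7⟩) = u n
        rw [h9, E.symm_apply_apply]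
        rfl
      rw [← h10, ← h8]
  choose g hg1 hg2 using hex
  exact ⟨g, hg1, hg2⟩

end functionals

end Pool.Agent.Lib.MP_4b6a63_an
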