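import Mathlib
import Pool.Agent.Lib.MP_4b6a63_an.Core

set_option autoImplicit false

open Filter Topology

namespace Pool.Agent.Lib.MP_4b6a63_an

open scoped ZeroAtInfty

section

variable {X : Type*} [NormedAddCommGroup X] [NormedSpace ℝ X]

/-- a functional and a complementary vector for a closed hyperplane -/
theorem exists_functional (H : Submodule ℝ X) (hH : IsClosed (H : Set X))
    (h1 : Module.finrank ℝ (X ⧸ H) = 1) :
    ∃ (f : X →L[ℝ] ℝ) (v : X), f v = 1 ∧ ∀ x, f x = 0 ↔ x ∈ H := by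
  haveI := hH
  haveI : Nontrivial (X ⧸ H) := Module.nontrivial_of_finrank_pos (R := ℝ) (by omega)
  obtain ⟨w, hw⟩ := exists_ne (0 : X ⧸ H)
  obtain ⟨v0, rfl⟩ := Submodule.Quotient.mk_surjective H w
  have hne : ‖(Submodule.Quotient.mk v0 : X ⧸ H)‖ ≠ 0 := norm_ne_zero_iff.2 hw
  obtain ⟨g, hg1, hg2⟩ := exists_dual_vector ℝ (Submodule.Quotient.mk v0 : X ⧸ H) hne
  have hgv : g (Submodule.Quotient.mk v0) ≠ 0 := by
    rw [hg2]
    simpa using hne
  set c : ℝ := g (Submodule.Quotient.mk v0) with hc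
  refine ⟨c⁻¹ • (g.comp H.mkQL), v0, ?_, ?_⟩
  · simp only [ContinuousLinearMap.smul_apply, ContinuousLinearMap.comp_apply, smul_eq_mul]
    change c⁻¹ * c = 1
    exact inv_mul_cancel₀ hgv
  · intro x
    have hfin := (finrank_eq_one_iff_of_nonzero' (Submodule.Quotient.mk v0 : X ⧸ H) hw).1 h1
      (Submodule.Quotient.mk x)
    obtain ⟨s, hs⟩ := hfin
    have hval : (c⁻¹ • (g.comp H.mkQL)) x = s := by
      simp only [ContinuousLinearMap.smul_apply, ContinuousLinearMap.comp_apply, smul_eq_mul]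
      change c⁻¹ * g (Submodule.Quotient.mk x) = s
      rw [← hs, map_smul, smul_eq_mul, ← hc]
      field_simp
    rw [hval]
    constructor
    · intro h0
      rw [h0, zero_smul] at hs
      exact (Submodule.Quotient.mk_eq_zero H).1 hs.symm
    · intro hx
      have := (Submodule.Quotient.mk_eq_zero H).2 hx
      rw [this] at hs
      rcases smul_eq_zero.1 hs with h0 | h0
      · exact h0
      · exact absurd h0 hw

/-- a copy of `c₀` in the hyperplane -/
theorem exists_in_hyper (J : C₀(ℕ, ℝ) →L[ℝ] X) (c : ℝ) (hc : 0 < c) (hJ : ∀ u, c * ‖u‖ ≤ ‖J u‖)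
    (H : Submodule ℝ X) (f : X →L[ℝ] ℝ) (hf : ∀ x, f x = 0 ↔ x ∈ H) :
    ∃ (J' : C₀(ℕ, ℝ) → H) (A : ℝ) (_ : 0 ≤ A) (_ : ∀ u v, ‖J' u - J' v‖ ≤ A * ‖u - v‖)
      (g : ℕ → H →L[ℝ] ℝ) (K : ℝ) (_ : 0 ≤ K) (_ : ∀ n y, |g n y| ≤ K * ‖y‖),
      ∀ n u, g n (J' u) = u n := by
  obtain ⟨g, hg, hgJ⟩ := exists_functionals J c hc hJ
  by_cases hall : ∀ n, f (J (e0 n)) = 0
  · have h0 : ∀ u, f (J u) = 0 := fun u => functional_zero (f.comp J) hall u
    refine ⟨fun u => ⟨J u, (hf _).1 (h0 u)⟩, ‖J‖, J.opNorm_nonneg, ?_,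
      fun n => (g n).comp H.subtypeL, c⁻¹, by positivity, ?_, ?_⟩
    · intro u v
      change ‖J u - J v‖ ≤ _
      rw [← map_sub]
      exact J.le_opNorm _
    · intro n y
      exact hg n y
    · intro n u
      exact hgJ n u
  · push Not at hall
    obtain ⟨n0, hn0⟩ := hall
    set w : X := J (e0 n0) with hw
    have hmem : ∀ x : X, x - (f x / f w) • w ∈ H := by
      intro x
      rw [← hf, map_sub, map_smul, smul_eq_mul, div_mul_cancel₀ _ hn0, sub_self]
    set C : ℝ := 1 + ‖f‖ / |f w| * ‖w‖ with hC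
    have hCpos : 0 ≤ C := by
      have : 0 ≤ ‖f‖ := f.opNorm_nonneg
      positivity
    have hπ : ∀ x : X, ‖x - (f x / f w) • w‖ ≤ C * ‖x‖ := by
      intro x
      refine le_trans (norm_sub_le _ _) ?_
      rw [norm_smul, Real.norm_eq_abs, abs_div, hC, add_mul, one_mul]
      have h1 : |f x| ≤ ‖f‖ * ‖x‖ := f.le_opNorm x
      have h2 : |f x| / |f w| * ‖w‖ ≤ ‖f‖ * ‖x‖ / |f w| * ‖w‖ := by gcongr
      have h3 : ‖f‖ * ‖x‖ / |f w| * ‖w‖ = ‖f‖ / |f w| * ‖w‖ * ‖x‖ := by ring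
      linarith
    refine ⟨fun u => ⟨J (sh (n0 + 1) u) - (f (J (sh (n0 + 1) u)) / f w) • w, hmem _⟩, C * ‖J‖,
      mul_nonneg hCpos J.opNorm_nonneg, ?_, fun n => (g (n + (n0 + 1))).comp H.subtypeL, c⁻¹,
      by positivity, ?_, ?_⟩
    · intro u v
      change ‖(J (sh (n0 + 1) u) - (f (J (sh (n0 + 1) u)) / f w) • w) -
        (J (sh (n0 + 1) v) - (f (J (sh (n0 + 1) v)) / f w) • w)‖ ≤ _
      have h1 : (J (sh (n0 + 1) u) - (f (J (sh (n0 + 1) u)) / f w) • w) -
        (J (sh (n0 + 1) v) - (f (J (sh (n0 + 1) v)) / f w) • w) =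
        J (sh (n0 + 1) u - sh (n0 + 1) v) -
          (f (J (sh (n0 + 1) u - sh (n0 + 1) v)) / f w) • w := by
        simp only [map_sub, sub_div, sub_smul]
        abel
      rw [h1]
      refine le_trans (hπ _) ?_
      rw [mul_assoc]
      refine mul_le_mul_of_nonneg_left ?_ hCpos
      refine le_trans (J.le_opNorm _) ?_
      exact mul_le_mul_of_nonneg_left (sh_lip _ _ _) J.opNorm_nonneg
    · intro n y
      exact hg _ y
    · intro n u
      change g (n + (n0 + 1)) (J (sh (n0 + 1) u) - (f (J (sh (n0 + 1) u)) / f w) • w) = u n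
      rw [map_sub, map_smul, hgJ, sh_apply, hw, hgJ]
      have : (e0 n0) (n + (n0 + 1)) = 0 := by
        simp only [e0, mk0_apply]
        rw [if_neg (by omega)]
      rw [this, smul_zero, sub_zero]

/-- the main theorem, for a copy of `c₀` given by an operator `J` -/
theorem hyperplane (J : C₀(ℕ, ℝ) →L[ℝ] X) (c : ℝ) (hc : 0 < c) (hJ : ∀ u, c * ‖u‖ ≤ ‖J u‖)
    (H : Submodule ℝ X) (hH : IsClosed (H : Set X)) (h1 : Module.finrank ℝ (X ⧸ H) = 1) :
    ∃ (e : X ≃ H) (C : NNReal), LipschitzWith C e ∧ LipschitzWith C e.symm := by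
  obtain ⟨f, v, hv, hf⟩ := exists_functional H hH h1
  obtain ⟨J', A, hA, hJ', g, K, hK, hg, hgJ⟩ := exists_in_hyper J c hc hJ H f hf
  obtain ⟨F, hF, C, hC, hup, hlow⟩ := core J' A hA hJ' g K hK hg hgJ
  have hmem : ∀ x : X, x - f x • v ∈ H := by
    intro x
    rw [← hf, map_sub, map_smul, smul_eq_mul, hv, mul_one, sub_self]
  -- the linear isomorphism
  let S : X ≃ ℝ × H :=
    { toFun := fun x => (f x, ⟨x - f x • v, hmem x⟩)
      invFun := fun p => p.1 • v + p.2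
      left_inv := fun x => by simp
      right_inv := fun p => by
        have h2 : f (p.2 : X) = 0 := (hf _).2 p.2.2
        have h3 : f (p.1 • v + (p.2 : X)) = p.1 := by
          rw [map_add, map_smul, smul_eq_mul, hv, mul_one, h2, add_zero]
        refine Prod.ext h3 (Subtype.ext ?_)
        change p.1 • v + (p.2 : X) - f (p.1 • v + (p.2 : X)) • v = p.2
        rw [h3]; abel }
  have hS1 : ∀ x y, ‖S x - S y‖ ≤ (1 + ‖f‖ + ‖f‖ * ‖v‖) * ‖x - y‖ := by
    intro x y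
    have hf1 : |f (x - y)| ≤ ‖f‖ * ‖x - y‖ := f.le_opNorm _
    have hfn : 0 ≤ ‖f‖ := f.opNorm_nonneg
    have hp1 : 0 ≤ ‖f‖ * ‖x - y‖ := by positivity
    have hp2 : 0 ≤ ‖f‖ * ‖v‖ * ‖x - y‖ := by positivity
    rw [Prod.norm_def]
    refine max_le ?_ ?_
    · change |f x - f y| ≤ _
      rw [← map_sub]
      nlinarith [norm_nonneg (x - y)]
    · change ‖(x - f x • v) - (y - f y • v)‖ ≤ _
      have h2 : (x - f x • v) - (y - f y • v) = (x - y) - f (x - y) • v := by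
        rw [map_sub, sub_smul]; abel
      rw [h2]
      refine le_trans (norm_sub_le _ _) ?_
      rw [norm_smul, Real.norm_eq_abs]
      have h3 : |f (x - y)| * ‖v‖ ≤ ‖f‖ * ‖x - y‖ * ‖v‖ :=
        mul_le_mul_of_nonneg_right hf1 (norm_nonneg _)
      nlinarith [norm_nonneg (x - y)]
  have hS2 : ∀ p q, ‖S.symm p - S.symm q‖ ≤ (‖v‖ + 1) * ‖p - q‖ := by
    intro p q
    change ‖(p.1 • v + (p.2 : X)) - (q.1 • v + (q.2 : X))‖ ≤ _
    have h2 : (p.1 • v + (p.2 : X)) - (q.1 • v + (q.2 : X)) =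
        (p.1 - q.1) • v + ((p.2 - q.2 : H) : X) := by
      rw [sub_smul, Submodule.coe_sub]; abel
    rw [h2]
    refine le_trans (norm_add_le _ _) ?_
    rw [norm_smul]
    have h3 : ‖p.1 - q.1‖ ≤ ‖p - q‖ := norm_fst_le (p - q)
    have h4 : ‖((p.2 - q.2 : H) : X)‖ ≤ ‖p - q‖ := norm_snd_le (p - q)
    have h5 : ‖p.1 - q.1‖ * ‖v‖ ≤ ‖p - q‖ * ‖v‖ := mul_le_mul_of_nonneg_right h3 (norm_nonneg _)
    linarith
  let e : X ≃ H := S.trans (Equiv.ofBijective F hF)
  have he1 : ∀ x y, ‖e x - e y‖ ≤ C * (1 + ‖f‖ + ‖f‖ * ‖v‖) * ‖x - y‖ := by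
    intro x y
    change ‖F (S x) - F (S y)‖ ≤ _
    refine le_trans (hup _ _) ?_
    rw [mul_assoc]
    exact mul_le_mul_of_nonneg_left (hS1 x y) hC
  have he2 : ∀ x y, ‖e.symm x - e.symm y‖ ≤ (‖v‖ + 1) * C * ‖x - y‖ := by
    intro x y
    change ‖S.symm ((Equiv.ofBijective F hF).symm x) - S.symm ((Equiv.ofBijective F hF).symm y)‖ ≤ _
    refine le_trans (hS2 _ _) ?_
    rw [mul_assoc]
    refine mul_le_mul_of_nonneg_left ?_ (by positivity)
    have := hlow ((Equiv.ofBijective F hF).symm x) ((Equiv.ofBijective F hF).symm y)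
    have hx : F ((Equiv.ofBijective F hF).symm x) = x := (Equiv.ofBijective F hF).apply_symm_apply x
    have hy : F ((Equiv.ofBijective F hF).symm y) = y := (Equiv.ofBijective F hF).apply_symm_apply y
    rwa [hx, hy] at this
  have hfn : 0 ≤ ‖f‖ := f.opNorm_nonneg
  have hc1 : 0 ≤ C * (1 + ‖f‖ + ‖f‖ * ‖v‖) := by positivity
  have hc2 : 0 ≤ (‖v‖ + 1) * C := by positivity
  refine ⟨e, Real.toNNReal (C * (1 + ‖f‖ + ‖f‖ * ‖v‖) + (‖v‖ + 1) * C), ?_, ?_⟩
  · refine LipschitzWith.of_dist_le_mul fun x y => ?_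
    rw [dist_eq_norm, dist_eq_norm, Real.coe_toNNReal _ (by positivity)]
    exact le_trans (he1 x y) (mul_le_mul_of_nonneg_right (by linarith) (norm_nonneg _))
  · refine LipschitzWith.of_dist_le_mul fun x y => ?_
    rw [dist_eq_norm, dist_eq_norm, Real.coe_toNNReal _ (by positivity)]
    exact le_trans (he2 x y) (mul_le_mul_of_nonneg_right (by linarith) (norm_nonneg _))

end

end Pool.Agent.Lib.MP_4b6a63_an
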